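import Pool.Agent.helper22.EC.EL

set_option autoImplicit false

/-! EC project (MP_00de39_al), module EL2: echelon descends to a free factor. -/

namespace Pool.Agent.helper22.EC

open FreeGroup Cardinal

/-- transport of free factors along an isomorphism -/
theorem EL2_ff_equiv {G G0 : Type} [Group G] [Group G0] (e : G0 ≃* G) (A : Subgroup G)
    (h : IsFF A) : IsFF (A.comap e.toMonoidHom) := by
  obtain ⟨ι, b, S, rfl⟩ := h
  refine ⟨ι, b.map e.symm, S, ?_⟩
  have h1 : (Subgroup.closure (b '' S)).comap e.toMonoidHom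
      = (Subgroup.closure (b '' S)).map e.symm.toMonoidHom := by
    ext x
    simp only [Subgroup.mem_comap, Subgroup.mem_map]
    constructor
    · intro hx
      exact ⟨e x, hx, by simp⟩
    · rintro ⟨y, hy, rfl⟩
      simpa using hy
  rw [h1, MonoidHom.map_closure]
  congr 1
  ext x
  simp

/-- the preimage of a free factor under an injective homomorphism -/
theorem EL2_ff_comap {G G0 : Type} [Group G] [Group G0] (f : G0 →* G)
    (hf : Function.Injective f) (A : Subgroup G) (h : IsFF A) : IsFF (A.comap f) := by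
  have h1 := EL2_ff_equiv (f.ofInjective hf) (A.subgroupOf f.range) (ff_inter A f.range h)
  convert h1 using 1
  ext x
  rfl

theorem EL2_range {n : ℕ} (s : Fin (n + 1)) :
    (FreeGroup.map (Fin.succAbove s)).range = Sm s := by
  rw [MonoidHom.range_eq_map, ← FreeGroup.closure_range_of, MonoidHom.map_closure, Sm]
  congr 1
  ext x
  simp only [Set.mem_image, Set.mem_range, exists_exists_eq_and, FreeGroup.map.of, Set.mem_setOf_eq]
  constructor
  · rintro ⟨a, rfl⟩
    exact ⟨_, Fin.succAbove_ne s a, rfl⟩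
  · rintro ⟨b, hb, rfl⟩
    obtain ⟨a, ha⟩ := Fin.exists_succAbove_eq hb
    exact ⟨a, by rw [ha]⟩

theorem EL2_inj {n : ℕ} (s : Fin (n + 1)) :
    Function.Injective (FreeGroup.map (Fin.succAbove s)) :=
  FreeGroup.map_injective (Fin.succAbove_right_injective)

theorem EL2_comap_inf {G G0 : Type} [Group G] [Group G0] (f : G0 →* G) (A : Subgroup G) :
    A.comap f = (A ⊓ f.range).comap f := by
  ext x
  simp

theorem EL2_rk_inf_le {G : Type} [Group G] [IsFreeGroup G] (H A : Subgroup G) (h : IsFF A) :
    rk (H ⊓ A) ≤ rk H := by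
  refine rk_le_of_ff _ _ inf_le_left ?_
  have h1 := ff_inter A H h
  convert h1 using 1
  ext x
  simp [Subgroup.mem_subgroupOf]

theorem EL2_Bd {n : ℕ} (Φ : FreeGroup (Fin n) ≃* FreeGroup (Fin n)) : ∃ B, Bd B Φ := by
  refine ⟨∑ x : Fin n, (FreeGroup.norm (Φ (of x)) + FreeGroup.norm (Φ.symm (of x))), fun x => ?_⟩
  have h1 := Finset.single_le_sum
    (f := fun x : Fin n => FreeGroup.norm (Φ (of x)) + FreeGroup.norm (Φ.symm (of x)))
    (fun i _ => Nat.zero_le _) (Finset.mem_univ x)
  exact ⟨(Nat.le_add_right _ _).trans h1, (Nat.le_add_left _ _).trans h1⟩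

/-- chains of free factors give echelon subgroups -/
theorem EL2_chain (n : ℕ) : ∀ (H : Subgroup (FreeGroup (Fin n))) (m : ℕ)
    (G : ℕ → Subgroup (FreeGroup (Fin n))), G 0 = ⊥ → G m = ⊤ → (∀ i, IsFF (G i)) →
    Monotone G → (∀ i < m, rk (H ⊓ G (i + 1)) ≤ rk (H ⊓ G i) + 1) → IsEchelon H := by
  induction n with
  | zero =>
    intro H m G _ _ _ _ _
    exact ⟨FreeGroupBasis.ofFreeGroup _, fun i hi => absurd hi (Nat.not_lt_zero i)⟩
  | succ n ih =>
    intro H m G h0 hm hff hmono hrk
    classical
    -- the largest proper member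
    have hne0 : G 0 ≠ ⊤ := by
      rw [h0]
      exact bot_ne_top
    obtain ⟨j, hj, hj1⟩ : ∃ j, G j ≠ ⊤ ∧ G (j + 1) = ⊤ := by
      by_contra hcon
      push Not at hcon
      have : ∀ i, G i ≠ ⊤ := by
        intro i
        induction i with
        | zero => exact hne0
        | succ i ihi => exact hcon i ihi
      exact this m hm
    have hjm : j < m := by
      by_contra hcon
      apply hj
      rw [eq_top_iff, ← hm]
      exact hmono (by omega)
    have hr1 : rk H ≤ rk (H ⊓ G j) + 1 := by
      have := hrk j hjm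
      rwa [hj1, inf_top_eq] at this
    obtain ⟨ψ, s, hψ⟩ := inPFF_of_ff (G j) (G j) (hff j) hj le_rfl
    have hψinj : Function.Injective ψ.toMonoidHom := ψ.injective
    set f := FreeGroup.map (Fin.succAbove s) with hf
    have hfinj : Function.Injective f := EL2_inj s
    have hrange : f.range = Sm s := EL2_range s
    set H1 := H.map ψ.toMonoidHom with hH1
    have hrkH1 : rk H1 = rk H := rk_map _ hψinj H
    have hrkinf : ∀ i, rk (H1 ⊓ (G i).map ψ.toMonoidHom) = rk (H ⊓ G i) := by
      intro i
      rw [hH1, ← Subgroup.map_inf _ _ _ hψinj]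
      exact rk_map _ hψinj _
    have hffmap : ∀ i, IsFF ((G i).map ψ.toMonoidHom) := by
      intro i
      have h1 := EL2_ff_equiv ψ.symm (G i) (hff i)
      convert h1 using 1
      ext x
      simp only [Subgroup.mem_map, Subgroup.mem_comap]
      constructor
      · rintro ⟨y, hy, rfl⟩
        simpa using hy
      · intro hx
        exact ⟨ψ.symm x, hx, by simp⟩
    have hffSm : IsFF (Sm s) :=
      ⟨Fin (n + 1), FreeGroupBasis.ofFreeGroup _, {b | b ≠ s}, rfl⟩
    have hle : ∀ i ≤ j, (G i).map ψ.toMonoidHom ≤ Sm s := fun i hi =>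
      (Subgroup.map_mono (hmono hi)).trans hψ
    set H2 := H1.comap f with hH2
    -- ranks of intersections in the smaller group
    have hrk2 : ∀ i ≤ j, rk (H2 ⊓ ((G i).map ψ.toMonoidHom).comap f) = rk (H ⊓ G i) := by
      intro i hi
      rw [← hrkinf i, hH2, ← Subgroup.comap_inf]
      exact rk_comap f hfinj _ (inf_le_right.trans (by rw [hrange]; exact hle i hi))
    have hrkH2 : rk H2 = rk (H1 ⊓ Sm s) := by
      rw [hH2, EL2_comap_inf, hrange]
      exact rk_comap f hfinj _ (by rw [hrange]; exact inf_le_right)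
    have hrkH2le : rk H2 ≤ rk H := by
      rw [hrkH2, ← hrkH1]
      exact EL2_rk_inf_le _ _ hffSm
    have hech : IsEchelon H2 := by
      refine ih H2 (j + 1) (fun i => if i ≤ j then ((G i).map ψ.toMonoidHom).comap f else ⊤)
        ?_ ?_ ?_ ?_ ?_
      · simp only [Nat.zero_le, if_true, h0, Subgroup.map_bot]
        rw [MonoidHom.comap_bot, MonoidHom.ker_eq_bot_iff]
        exact hfinj
      · simp
      · intro i
        by_cases hi : i ≤ j
        · simp only [hi, if_true]
          exact EL2_ff_comap f hfinj _ (hffmap i)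
        · simp only [hi, if_false]
          refine ⟨Fin n, FreeGroupBasis.ofFreeGroup _, Set.univ, ?_⟩
          rw [Set.image_univ]
          exact (FreeGroup.closure_range_of (Fin n)).symm
      · intro i i' hii
        by_cases hi : i' ≤ j
        · simp only [hi, hii.trans hi, if_true]
          exact Subgroup.comap_mono (Subgroup.map_mono (hmono hii))
        · simp only [hi, if_false]
          exact le_top
      · intro i hi
        have hij : i ≤ j := by omega
        simp only [hij, if_true]
        rw [hrk2 i hij]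
        by_cases hi1 : i + 1 ≤ j
        · simp only [hi1, if_true]
          rw [hrk2 (i + 1) hi1]
          exact hrk i (by omega)
        · have : i = j := by omega
          subst this
          simp only [hi1, if_false]
          rw [inf_top_eq]
          exact hrkH2le.trans hr1
    obtain ⟨Φ', hΦ'⟩ := (isEchelon_iff H2).1 hech
    obtain ⟨B, hB⟩ := EL2_Bd Φ'
    have hr2 : rk H1 ≤ rk (H1 ⊓ Sm s) + 1 := by
      rw [hrkH1]
      refine hr1.trans (add_le_add_left ?_ 1)
      rw [← hrkinf j]
      have h1 : H1 ⊓ (G j).map ψ.toMonoidHom = (H1 ⊓ Sm s) ⊓ (G j).map ψ.toMonoidHom := by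
        rw [inf_assoc, inf_eq_right.2 (hle j le_rfl)]
      rw [h1]
      exact EL2_rk_inf_le _ _ (hffmap j)
    obtain ⟨Φ, _, hΦ⟩ := echelon_step s H1 hr2 B Φ' hB hΦ'
    have hE1 : IsEchelon H1 := (isEchelon_iff H1).2 ⟨Φ, hΦ⟩
    have hE := isEchelon_comap ψ H1 hE1
    rwa [hH1, Subgroup.comap_map_eq_self_of_injective hψinj] at hE

/-- echelon descends to a free factor containing the subgroup (chains of free factors) -/
theorem echelon_desc {n : ℕ} (s : Fin (n + 1)) (K : Subgroup (FreeGroup (Fin (n + 1))))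
    (hK : K ≤ Sm s) (h : IsEchelon K) :
    IsEchelon (K.comap (FreeGroup.map (Fin.succAbove s))) := by
  obtain ⟨Φ, hΦ⟩ := (isEchelon_iff K).1 h
  have hΦinj : Function.Injective Φ.toMonoidHom := Φ.injective
  set f := FreeGroup.map (Fin.succAbove s) with hf
  have hfinj : Function.Injective f := EL2_inj s
  have hrange : f.range = Sm s := EL2_range s
  have hrk : ∀ i, rk (K.comap f ⊓ ((Fs (n + 1) i).comap Φ.toMonoidHom).comap f)
      = rk (K.map Φ.toMonoidHom ⊓ Fs (n + 1) i) := by
    intro i
    rw [← Subgroup.comap_inf, rk_comap f hfinj _ (inf_le_left.trans (by rw [hrange]; exact hK)),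
      ← rk_map Φ.toMonoidHom hΦinj, Subgroup.map_inf _ _ _ hΦinj,
      Subgroup.map_comap_eq_self_of_surjective Φ.surjective]
  refine EL2_chain n _ (n + 1) (fun i => ((Fs (n + 1) i).comap Φ.toMonoidHom).comap f)
    ?_ ?_ ?_ ?_ ?_
  · have h1 : Fs (n + 1) 0 = ⊥ := by
      simp [Fs]
    show ((Fs (n + 1) 0).comap Φ.toMonoidHom).comap f = ⊥
    rw [h1, MonoidHom.comap_bot, (MonoidHom.ker_eq_bot_iff _).2 hΦinj, MonoidHom.comap_bot,
      (MonoidHom.ker_eq_bot_iff _).2 hfinj]
  · have h1 : Fs (n + 1) (n + 1) = ⊤ := by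
      have h2 : {j : Fin (n + 1) | j.val < n + 1} = Set.univ := by
        ext j
        simp [Fin.is_le j]
      rw [Fs, h2, Set.image_univ, FreeGroup.closure_range_of]
    show ((Fs (n + 1) (n + 1)).comap Φ.toMonoidHom).comap f = ⊤
    rw [h1, Subgroup.comap_top, Subgroup.comap_top]
  · intro i
    exact EL2_ff_comap f hfinj _ (EL2_ff_equiv Φ _ (ff_Fs (n + 1) i))
  · intro i j hij
    apply Subgroup.comap_mono
    apply Subgroup.comap_mono
    apply Subgroup.closure_mono
    apply Set.image_mono
    intro x hx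
    exact lt_of_lt_of_le hx hij
  · intro i hi
    simp only [hrk]
    exact hΦ i hi

end Pool.Agent.helper22.EC
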